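import Pool.Agent.NPG.Stmts

/-!
# Squad NPG (MP_005a41_gt), row FLO: the local functional for a group with a closed line
-/

set_option autoImplicit false

open MeasureTheory Set Topology Filter
open scoped BigOperators Pointwise

namespace Pool.Agent.NPG.H32

/-- **FLO**. -/
theorem flo : FloStmt := by
  intro H _ _ _ _ γ hγ hadd
  have hγc : Continuous γ := hγ.continuous
  have h00 : γ 0 = 1 := by
    have h1 := hadd 0 0
    rw [add_zero] at h1
    exact (left_eq_mul.1 h1)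
  have hneg : ∀ s, γ (-s) = (γ s)⁻¹ := by
    intro s
    rw [eq_inv_iff_mul_eq_one, ← hadd, neg_add_cancel, h00]
  -- small neighbourhood
  obtain ⟨U, hU, hUs, hU4⟩ : ∃ U ∈ 𝓝 (1 : H), (∀ a ∈ U, a⁻¹ ∈ U) ∧
      ∀ a ∈ U, ∀ b ∈ U, ∀ c ∈ U, ∀ d ∈ U, ∀ s : ℝ, a * b * c * d = γ s → |s| < 1 := by
    have h1 : Metric.ball (0 : ℝ) 1 ∈ 𝓝 (0 : ℝ) := Metric.ball_mem_nhds _ one_pos
    rw [hγ.isInducing.nhds_eq_comap, mem_comap, h00] at h1
    obtain ⟨N, hN, hNs⟩ := h1
    obtain ⟨W, hW, hW4⟩ := exists_nhds_one_split4 hN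
    refine ⟨W ∩ W⁻¹, inter_mem hW (inv_mem_nhds_one H hW), ?_, ?_⟩
    · intro a ha
      exact ⟨Set.mem_inv.1 ha.2, by rw [Set.mem_inv, inv_inv]; exact ha.1⟩
    · intro a ha b hb c hc d hd s hs
      have h2 : a * b * c * d ∈ N := hW4 ha.1 hb.1 hc.1 hd.1
      rw [hs] at h2
      have h3 : s ∈ Metric.ball (0 : ℝ) 1 := hNs h2
      rw [Metric.mem_ball, Real.dist_eq, sub_zero] at h3
      exact h3
  obtain ⟨f, hf0, hf1, hf⟩ := exists_continuous_zero_one_of_isClosed
    (s := (interior U)ᶜ) (t := {(1 : H)}) isOpen_interior.isClosed_compl isClosed_singleton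
    (by
      rw [disjoint_singleton_right]
      intro h
      exact h (mem_interior_iff_mem_nhds.2 hU))
  have hfU : ∀ v, f v ≠ 0 → v ∈ U := by
    intro v hv
    by_contra hvU
    exact hv (hf0 (fun h => hvU (interior_subset h)))
  -- local bound
  have hloc : ∀ v₀ : H, ∃ s₀ : ℝ, ∀ v ∈ (fun v : H => v * v₀⁻¹) ⁻¹' U, ∀ s : ℝ,
      s ∉ Icc (s₀ - 1) (s₀ + 1) → f (v * γ (-s)) = 0 := by
    intro v₀
    by_cases h : ∃ v₁ ∈ (fun v : H => v * v₀⁻¹) ⁻¹' U, ∃ s₀ : ℝ, f (v₁ * γ (-s₀)) ≠ 0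
    · obtain ⟨v₁, hv₁, s₀, hs₀⟩ := h
      refine ⟨s₀, fun v hv s hs => ?_⟩
      by_contra hne
      apply hs
      have h1 : (v₁ * γ (-s₀))⁻¹ ∈ U := hUs _ (hfU _ hs₀)
      have h2 : v₁ * v₀⁻¹ ∈ U := hv₁
      have h3 : (v * v₀⁻¹)⁻¹ ∈ U := hUs _ hv
      have h4 : v * γ (-s) ∈ U := hfU _ hne
      have h5 := hU4 _ h1 _ h2 _ h3 _ h4 (s₀ - s) (by
        rw [sub_eq_add_neg, hadd, hneg s₀]
        group)
      rw [abs_lt] at h5
      constructor <;> linarith [h5.1, h5.2]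
    · refine ⟨0, fun v hv s _ => ?_⟩
      by_contra hne
      exact h ⟨v, hv, s, hne⟩
  have hnb : ∀ v₀ : H, (fun v : H => v * v₀⁻¹) ⁻¹' U ∈ 𝓝 v₀ := by
    intro v₀
    have hc : Continuous (fun v : H => v * v₀⁻¹) := by fun_prop
    exact hc.continuousAt.preimage_mem_nhds (by simpa using hU)
  have hcont : ∀ g : ℝ → ℝ, Continuous g →
      Continuous (fun v : H => ∫ s, g s * f (v * γ (-s))) := by
    intro g hg
    rw [continuous_iff_continuousAt]
    intro v₀
    obtain ⟨s₀, hs₀⟩ := hloc v₀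
    have := continuousOn_integral_of_compact_support (μ := (volume : Measure ℝ))
      (f := fun (v : H) (s : ℝ) => g s * f (v * γ (-s))) (s := (fun v : H => v * v₀⁻¹) ⁻¹' U)
      (k := Icc (s₀ - 1) (s₀ + 1)) isCompact_Icc (by
        apply Continuous.continuousOn
        show Continuous (fun p : H × ℝ => g p.2 * f (p.1 * γ (-p.2)))
        fun_prop) (by
        intro v s hv hs
        show g s * f (v * γ (-s)) = 0
        rw [hs₀ v hv s hs, mul_zero])
    exact this.continuousAt (hnb v₀)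
  have hint : ∀ (g : ℝ → ℝ), Continuous g → ∀ v : H,
      Integrable (fun s : ℝ => g s * f (v * γ (-s))) := by
    intro g hg v
    obtain ⟨s₀, hs₀⟩ := hloc v
    refine Continuous.integrable_of_hasCompactSupport (by fun_prop) ?_
    refine HasCompactSupport.intro (K := Icc (s₀ - 1) (s₀ + 1)) isCompact_Icc ?_
    intro s hs
    rw [hs₀ v (mem_of_mem_nhds (hnb v)) s hs, mul_zero]
  refine ⟨fun v => ∫ s : ℝ, f (v * γ (-s)), fun v => ∫ s : ℝ, s * f (v * γ (-s)),
    ?_, ?_, ?_, ?_, ?_⟩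
  · simpa using hcont (fun _ => 1) continuous_const
  · exact hcont (fun s => s) continuous_id
  · show 0 < ∫ s : ℝ, f ((1 : H) * γ (-s))
    have hi : Integrable (fun s : ℝ => f ((1 : H) * γ (-s))) := by
      simpa using hint (fun _ => 1) continuous_const 1
    have hc : Continuous (fun s : ℝ => f ((1 : H) * γ (-s))) := by fun_prop
    refine hc.integral_pos_of_hasCompactSupport_nonneg_nonzero ?_ ?_ (x := 0) ?_
    · obtain ⟨s₀, hs₀⟩ := hloc 1
      refine HasCompactSupport.intro (K := Icc (s₀ - 1) (s₀ + 1)) isCompact_Icc ?_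
      intro s hs
      exact hs₀ 1 (mem_of_mem_nhds (hnb 1)) s hs
    · intro s
      exact (hf _).1
    · have := hf1 (mem_singleton (1 : H))
      rw [neg_zero, h00, mul_one, this]
      simp
  · intro v t
    show ∫ s : ℝ, f (v * γ t * γ (-s)) = ∫ s : ℝ, f (v * γ (-s))
    rw [← integral_sub_right_eq_self (fun s : ℝ => f (v * γ (-s))) t]
    congr 1
    ext s
    congr 1
    rw [mul_assoc, ← hadd, neg_sub, sub_eq_add_neg]
  · intro v t
    show ∫ s : ℝ, s * f (v * γ t * γ (-s))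
      = (∫ s : ℝ, s * f (v * γ (-s))) + t * ∫ s : ℝ, f (v * γ (-s))
    rw [← integral_const_mul, ← integral_add (hint (fun s => s) continuous_id v) (by
      exact hint (fun _ => t) continuous_const v)]
    rw [← integral_sub_right_eq_self (fun s : ℝ => s * f (v * γ (-s)) + t * f (v * γ (-s))) t]
    congr 1
    ext s
    have : v * γ t * γ (-s) = v * γ (-(s - t)) := by
      rw [mul_assoc, ← hadd, neg_sub, sub_eq_add_neg]
    rw [this]
    ring

end Pool.Agent.NPG.H32
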